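import Mathlib

/-!
Sums of squares of polynomials over formally real rings, and the Motzkin polynomial.
-/

namespace Q48.Artin

open Polynomial

/-- finite sums of squares vanish only trivially -/
def FR (R : Type*) [CommRing R] : Prop :=
  ∀ (N : ℕ) (r : Fin N → R), ∑ i, r i ^ 2 = 0 → ∀ i, r i = 0

theorem FR_real : FR ℝ := fun N r h i => by
  have := (Finset.sum_eq_zero_iff_of_nonneg (fun i _ => sq_nonneg (r i))).mp h i
    (Finset.mem_univ i)
  exact pow_eq_zero_iff (two_ne_zero) |>.mp this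

variable {R : Type*} [CommRing R]

theorem coeff_sq {h : R[X]} {D : ℕ} (hD : h.natDegree ≤ D) :
    (h ^ 2).coeff (2 * D) = h.coeff D ^ 2 := coeff_pow_of_natDegree_le hD

theorem coeff_sum_sq {N : ℕ} {h : Fin N → R[X]} {D : ℕ} (hD : ∀ i, (h i).natDegree ≤ D) :
    (∑ i, h i ^ 2).coeff (2 * D) = ∑ i, (h i).coeff D ^ 2 := by
  rw [finsetSum_coeff]
  exact Finset.sum_congr rfl fun i _ => coeff_sq (hD i)

/-- degrees of the summands of a sum of squares are controlled -/
theorem natDegree_le_of_sum_sq (hR : FR R) {N : ℕ} {h : Fin N → R[X]} {D : ℕ}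
    (hD : ∀ n, 2 * D < n → (∑ i, h i ^ 2).coeff n = 0) : ∀ i, (h i).natDegree ≤ D := by
  have key : ∀ e : ℕ, (∀ i, (h i).natDegree ≤ D + e) → ∀ i, (h i).natDegree ≤ D := by
    intro e
    induction e with
    | zero => exact fun h0 => h0
    | succ e ih =>
      intro h1
      apply ih
      intro i
      have h2 := coeff_sum_sq h1
      rw [hD _ (by omega)] at h2
      have h3 := hR N _ h2.symm i
      rw [natDegree_le_iff_coeff_eq_zero]
      intro n hn
      rcases Nat.lt_or_ge (D + (e + 1)) n with h4 | h4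
      · exact coeff_eq_zero_of_natDegree_lt ((h1 i).trans_lt h4)
      · have : n = D + (e + 1) := by omega
        rw [this]
        exact h3
  refine key (∑ i, (h i).natDegree) fun i => ?_
  have := Finset.single_le_sum (f := fun i => (h i).natDegree) (fun i _ => Nat.zero_le _)
    (Finset.mem_univ i)
  exact this.trans (Nat.le_add_left _ _)

theorem FR_poly (hR : FR R) : FR R[X] := by
  intro N r h i
  have h1 := natDegree_le_of_sum_sq hR (h := r) (D := 0) (by
    intro n _
    rw [h, coeff_zero])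
  have h2 := coeff_sum_sq h1
  rw [h, coeff_zero] at h2
  have h3 := hR N _ h2.symm i
  rw [eq_C_of_natDegree_le_zero (h1 i), h3, C_0]

/-- divisibility by `X ^ 2` passes to the summands -/
theorem descend (hR : FR R) {N : ℕ} {h : Fin N → R[X]} {G : R[X]}
    (hG : X ^ 2 * G = ∑ i, h i ^ 2) : ∃ g : Fin N → R[X], G = ∑ i, g i ^ 2 := by
  have h0 : ∀ i, (h i).coeff 0 = 0 := by
    have h1 : ∑ i, (h i).coeff 0 ^ 2 = 0 := by
      have := congrArg (fun P : R[X] => P.eval 0) hG
      simp only [eval_finsetSum, eval_mul, eval_pow, eval_X] at this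
      simp only [coeff_zero_eq_eval_zero]
      rw [← this]
      ring
    exact hR N _ h1
  choose g hg using fun i => X_dvd_iff.mpr (h0 i)
  refine ⟨g, ?_⟩
  have h2 : X ^ 2 * G = X ^ 2 * ∑ i, g i ^ 2 := by
    rw [hG, Finset.mul_sum]
    refine Finset.sum_congr rfl fun i _ => ?_
    rw [hg i]
    ring
  exact (isRegular_X_pow 2).left h2

/-- the dehomogenised Motzkin polynomial, as a polynomial in `X` over the polynomials in `Y` -/
noncomputable def mot : ℝ[X][X] :=
  X ^ 4 * C (X ^ 2) + X ^ 2 * C (X ^ 4) + 1 - 3 * X ^ 2 * C (X ^ 2)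

theorem mot_eq : mot = C (X ^ 2) * X ^ 4 + C (X ^ 4 - 3 * X ^ 2) * X ^ 2 + C 1 := by
  unfold mot
  simp only [C_sub, C_mul, C_1]
  have : (C (3 : ℝ[X]) : ℝ[X][X]) = 3 := rfl
  rw [this]
  ring

/-- positive multiples of the Motzkin polynomial are not sums of squares -/
theorem mot_not_sos {c : ℝ} (hc : 0 < c) {N : ℕ} (g : Fin N → ℝ[X][X])
    (h : C (C c) * mot = ∑ i, g i ^ 2) : False := by
  have hFR : FR ℝ[X] := FR_poly FR_real
  have hcoef : ∀ n, (C (C c) * mot).coeff n
      = if n = 4 then C c * X ^ 2 else if n = 2 then C c * (X ^ 4 - 3 * X ^ 2)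
        else if n = 0 then C c else 0 := by
    intro n
    rw [coeff_C_mul, mot_eq, coeff_add, coeff_add, coeff_C_mul_X_pow, coeff_C_mul_X_pow, coeff_C]
    by_cases h4 : n = 4
    · subst h4; simp
    · by_cases h2 : n = 2
      · subst h2; simp
      · by_cases h0 : n = 0
        · subst h0; simp
        · simp [h4, h2, h0]
  have hdeg : ∀ i, (g i).natDegree ≤ 2 := by
    refine natDegree_le_of_sum_sq hFR fun n hn => ?_
    rw [← h, hcoef, if_neg (by omega), if_neg (by omega), if_neg (by omega)]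
  -- the coefficients
  set a : Fin N → ℝ[X] := fun i => (g i).coeff 0 with ha
  set b : Fin N → ℝ[X] := fun i => (g i).coeff 1 with hb
  set e : Fin N → ℝ[X] := fun i => (g i).coeff 2 with he
  have hg : ∀ i, g i = C (a i) + C (b i) * X + C (e i) * X ^ 2 := by
    intro i
    have := (g i).as_sum_range_C_mul_X_pow' (n := 3) (by have := hdeg i; omega)
    rw [this, Finset.sum_range_succ, Finset.sum_range_succ, Finset.sum_range_one]
    simp [ha, hb, he]
  have hsq : ∀ i, g i ^ 2 = C (a i ^ 2) + C (2 * a i * b i) * X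
      + C (b i ^ 2 + 2 * a i * e i) * X ^ 2 + C (2 * b i * e i) * X ^ 3
      + C (e i ^ 2) * X ^ 4 := by
    intro i
    rw [hg i]
    simp only [C_add, C_mul, C_pow]
    have : (C (2 : ℝ[X]) : ℝ[X][X]) = 2 := rfl
    rw [this]
    ring
  have hcsq : ∀ i, (g i ^ 2).coeff 0 = a i ^ 2 ∧ (g i ^ 2).coeff 2 = b i ^ 2 + 2 * a i * e i
      ∧ (g i ^ 2).coeff 4 = e i ^ 2 := by
    intro i
    rw [hsq i]
    simp only [coeff_add, coeff_C_mul_X_pow, coeff_C, coeff_C_mul_X]
    refine ⟨by simp, by simp, by simp⟩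
  have e0 : ∑ i, a i ^ 2 = C c := by
    have h1 := hcoef 0
    rw [h, finsetSum_coeff] at h1
    simp only [(hcsq _).1] at h1
    rw [h1]
    simp
  have e2 : ∑ i, (b i ^ 2 + 2 * a i * e i) = C c * (X ^ 4 - 3 * X ^ 2) := by
    have h1 := hcoef 2
    rw [h, finsetSum_coeff] at h1
    simp only [(hcsq _).2.1] at h1
    rw [h1]
    simp
  have e4 : ∑ i, e i ^ 2 = C c * X ^ 2 := by
    have h1 := hcoef 4
    rw [h, finsetSum_coeff] at h1
    simp only [(hcsq _).2.2] at h1
    rw [h1]
    simp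
  -- the constant terms are constants
  have hadeg : ∀ i, (a i).natDegree ≤ 0 := by
    refine natDegree_le_of_sum_sq FR_real fun n hn => ?_
    rw [e0, coeff_C, if_neg (by omega)]
  have hedeg : ∀ i, (e i).natDegree ≤ 1 := by
    refine natDegree_le_of_sum_sq FR_real fun n hn => ?_
    rw [e4, coeff_C_mul_X_pow, if_neg (by omega)]
  have hez : ∀ i, (e i).eval 0 = 0 := by
    have h1 := congrArg (fun P : ℝ[X] => P.eval 0) e4
    simp only [eval_finsetSum, eval_pow, eval_mul, eval_C, eval_X] at h1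
    exact FR_real N _ (by rw [h1]; ring)
  have hodd : ∀ i, (e i).eval 1 + (e i).eval (-1) = 0 := by
    intro i
    obtain ⟨s, t, hst⟩ := exists_eq_X_add_C_of_natDegree_le_one (hedeg i)
    have h1 := hez i
    rw [hst] at h1 ⊢
    simp at h1 ⊢
    rw [h1]
    ring
  have haev : ∀ i, (a i).eval 1 = (a i).eval (-1) := by
    intro i
    rw [eq_C_of_natDegree_le_zero (hadeg i), eval_C, eval_C]
  have k1 := congrArg (fun P : ℝ[X] => P.eval 1) e2
  have k2 := congrArg (fun P : ℝ[X] => P.eval (-1)) e2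
  simp only [eval_finsetSum, eval_pow, eval_mul, eval_C, eval_X, eval_add, eval_sub,
    eval_ofNat] at k1 k2
  have k3 : ∑ i, ((b i).eval 1 ^ 2 + (b i).eval (-1) ^ 2) = -4 * c := by
    have : ∀ i, (b i).eval 1 ^ 2 + (b i).eval (-1) ^ 2
        = ((b i).eval 1 ^ 2 + 2 * (a i).eval 1 * (e i).eval 1)
          + ((b i).eval (-1) ^ 2 + 2 * (a i).eval (-1) * (e i).eval (-1)) := by
      intro i
      have h1 := hodd i
      have h2 : (e i).eval (-1) = -(e i).eval 1 := by linarith
      rw [h2, haev i]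
      ring
    rw [Finset.sum_congr rfl fun i _ => this i, Finset.sum_add_distrib, k1, k2]
    ring
  have k4 : 0 ≤ ∑ i, ((b i).eval 1 ^ 2 + (b i).eval (-1) ^ 2) :=
    Finset.sum_nonneg fun i _ => by positivity
  linarith

theorem mot_pow_not_sos {c : ℝ} (hc : 0 < c) (k : ℕ) {N : ℕ} (g : Fin N → ℝ[X][X])
    (h : C (C c) * (X ^ (2 * k) * mot) = ∑ i, g i ^ 2) : False := by
  induction k generalizing g with
  | zero =>
    refine mot_not_sos hc g ?_
    rw [← h]
    simp
  | succ k ih =>
    obtain ⟨g', hg'⟩ := descend (FR_poly FR_real) (G := C (C c) * (X ^ (2 * k) * mot)) (h := g) (by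
      rw [← h, mul_add, pow_add]
      ring)
    exact ih g' hg'

end Q48.Artin
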